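import Pool.Agent.Helper61.P3.St3

/-!
# Project P3, module LZB: local Bessel inequality
-/

set_option autoImplicit false

open MeasureTheory Set Filter Topology
open scoped ENNReal RealInnerProductSpace

namespace Pool.Agent.Helper8.P3

open Pool.Agent.Helper61.P3 Pool.Agent.Helper20.RG Pool.Agent.Helper20.EQ
open Pool.Agent.Helper68.LM (Pl BB Bd Av HL ft fm DQ)
open Pool.Agent.Helper68.EP (elt GapP)

theorem meas_Sq (x : Pl) (r : ℝ) : MeasurableSet (Sq x r) := by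
  have h0 : Continuous (fun y : Pl => y 0) := by fun_prop
  have h1 : Continuous (fun y : Pl => y 1) := by fun_prop
  have hc : IsClosed (Sq x r) :=
    (isClosed_le ((h0.sub continuous_const).abs) continuous_const).inter
      (isClosed_le ((h1.sub continuous_const).abs) continuous_const)
  exact hc.measurableSet

theorem Sq_mono (x : Pl) {r r' : ℝ} (h : r ≤ r') : Sq x r ⊆ Sq x r' :=
  fun _ hy => ⟨hy.1.trans h, hy.2.trans h⟩

/-- Markov inequality on a square. -/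
theorem markov (F : Pl → ℝ) (hF : Continuous F) (x : Pl) (r η : ℝ) (hη : 0 < η) :
    volume ({y | η / 8 < |F y|} ∩ Sq x r) ≤
      ENNReal.ofReal (64 / η ^ 2) * ∫⁻ y in Sq x r, ‖F y‖ₑ ^ 2 := by
  have hmeas : Measurable (fun y : Pl => ‖F y‖ₑ ^ 2) := (hF.measurable.enorm).pow_const 2
  have h1 := mul_meas_ge_le_lintegral (μ := volume.restrict (Sq x r)) hmeas
    (ENNReal.ofReal (η ^ 2 / 64))
  have h2 : volume ({y | η / 8 < |F y|} ∩ Sq x r) ≤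
      (volume.restrict (Sq x r)) {y | ENNReal.ofReal (η ^ 2 / 64) ≤ ‖F y‖ₑ ^ 2} := by
    rw [Measure.restrict_apply' (meas_Sq x r)]
    refine measure_mono (inter_subset_inter_left _ ?_)
    intro y hy
    have hy' : η / 8 < |F y| := hy
    show ENNReal.ofReal (η ^ 2 / 64) ≤ ‖F y‖ₑ ^ 2
    rw [Real.enorm_eq_ofReal_abs, ← ENNReal.ofReal_pow (abs_nonneg _)]
    apply ENNReal.ofReal_le_ofReal
    nlinarith [abs_nonneg (F y)]
  have h3 : ENNReal.ofReal (64 / η ^ 2) * ENNReal.ofReal (η ^ 2 / 64) = 1 := by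
    rw [← ENNReal.ofReal_mul (by positivity), show 64 / η ^ 2 * (η ^ 2 / 64) = 1 by
      field_simp, ENNReal.ofReal_one]
  calc volume ({y | η / 8 < |F y|} ∩ Sq x r)
      ≤ (volume.restrict (Sq x r)) {y | ENNReal.ofReal (η ^ 2 / 64) ≤ ‖F y‖ₑ ^ 2} := h2
    _ = ENNReal.ofReal (64 / η ^ 2) * (ENNReal.ofReal (η ^ 2 / 64) *
        (volume.restrict (Sq x r)) {y | ENNReal.ofReal (η ^ 2 / 64) ≤ ‖F y‖ₑ ^ 2}) := by
      rw [← mul_assoc, h3, one_mul]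
    _ ≤ _ := by gcongr

/-- Module LZB. -/
theorem hLZB (hFAM : Pool.Agent.Helper20.RG.StFAM) (hSYS : Pool.Agent.Helper20.RG.StSYS)
    (hGPG : Pool.Agent.Helper68.EP.StGPG) : Pool.Agent.Helper61.P3.StLZB := by
  intro φ τ A c hG hA hgap
  have hGap := hGPG τ A 3 hA (by norm_num) hgap
  have hA' : 0 < A ^ (1 / (3 : ℝ)) := Real.rpow_pos_of_pos hA _
  obtain ⟨Cf, hCf, hfam⟩ := hFAM 200 (‖c‖ + |φ 0| + 3) (by norm_num)
  refine ⟨64 * Cf, by linarith, ?_⟩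
  intro u w k Λ g x hu hΛ hg hg01 hloc
  have hsys := (hSYS φ τ (A ^ (1 / (3 : ℝ))) 3 c hG hGap hA' (by norm_num) u (by omega)).2 hu
  have hF := hfam u _ _ _ _ _ _ _ hsys hA'.le g hg hg01
  have hcont : ∀ j ∈ Finset.range (2 ^ u), Continuous (Zc c φ τ u w k j g) := fun j hj =>
    hF.cont w k j (Finset.mem_range.1 hj)
  -- the basic bound
  have hbase : ∑ j ∈ Finset.range (2 ^ u), ∫⁻ y in Sq x (4 * (2 : ℝ) ^ (k + (w : ℤ))),
      ‖Zc c φ τ u w k j g y‖ₑ ^ 2 ≤ ENNReal.ofReal (Cf * Λ * (4 : ℝ) ^ (k + (w : ℤ))) := by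
    refine (hF.lb w k x).trans ?_
    have hp : (0 : ℝ) < (2 : ℝ) ^ (k + (w : ℤ)) := by positivity
    have hle : ∫⁻ y in Sq x (Cf * (2 : ℝ) ^ (k + (w : ℤ))), ‖g y‖ₑ ^ 2 ≤
        ENNReal.ofReal (Λ * (4 : ℝ) ^ (k + (w : ℤ))) := by
      calc ∫⁻ y in Sq x (Cf * (2 : ℝ) ^ (k + (w : ℤ))), ‖g y‖ₑ ^ 2
          ≤ ∫⁻ y in Sq x (Cf * (2 : ℝ) ^ (k + (w : ℤ))), ‖g y‖ₑ := by
            apply lintegral_mono
            intro y
            have h1 : ‖g y‖ₑ ≤ 1 := by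
              rw [Real.enorm_eq_ofReal_abs, abs_of_nonneg (hg01 y).1]
              exact ENNReal.ofReal_le_one.2 (hg01 y).2
            calc ‖g y‖ₑ ^ 2 = ‖g y‖ₑ * ‖g y‖ₑ := sq _
              _ ≤ ‖g y‖ₑ * 1 := by gcongr
              _ = ‖g y‖ₑ := mul_one _
        _ ≤ ∫⁻ y in Sq x (64 * Cf * (2 : ℝ) ^ (k + (w : ℤ))), ‖g y‖ₑ :=
            lintegral_mono_set (Sq_mono x (by nlinarith))
        _ ≤ _ := hloc (k + (w : ℤ))
    calc ENNReal.ofReal Cf * ∫⁻ y in Sq x (Cf * (2 : ℝ) ^ (k + (w : ℤ))), ‖g y‖ₑ ^ 2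
        ≤ ENNReal.ofReal Cf * ENNReal.ofReal (Λ * (4 : ℝ) ^ (k + (w : ℤ))) := by gcongr
      _ = ENNReal.ofReal (Cf * Λ * (4 : ℝ) ^ (k + (w : ℤ))) := by
        rw [← ENNReal.ofReal_mul (by linarith), mul_assoc]
  constructor
  · refine hbase.trans (ENNReal.ofReal_le_ofReal ?_)
    have h4 : (0 : ℝ) ≤ Λ * (4 : ℝ) ^ (k + (w : ℤ)) := by positivity
    nlinarith
  · intro η hη
    calc ∑ j ∈ Finset.range (2 ^ u), volume (Ez c φ τ u w η k g j ∩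
          Sq x (4 * (2 : ℝ) ^ (k + (w : ℤ))))
        ≤ ∑ j ∈ Finset.range (2 ^ u), ENNReal.ofReal (64 / η ^ 2) *
          ∫⁻ y in Sq x (4 * (2 : ℝ) ^ (k + (w : ℤ))), ‖Zc c φ τ u w k j g y‖ₑ ^ 2 :=
          Finset.sum_le_sum fun j hj => markov _ (hcont j hj) x _ η hη
      _ = ENNReal.ofReal (64 / η ^ 2) * ∑ j ∈ Finset.range (2 ^ u),
          ∫⁻ y in Sq x (4 * (2 : ℝ) ^ (k + (w : ℤ))), ‖Zc c φ τ u w k j g y‖ₑ ^ 2 := by
          rw [Finset.mul_sum]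
      _ ≤ ENNReal.ofReal (64 / η ^ 2) * ENNReal.ofReal (Cf * Λ * (4 : ℝ) ^ (k + (w : ℤ))) := by
          gcongr
      _ = ENNReal.ofReal (64 * Cf * Λ / η ^ 2 * (4 : ℝ) ^ (k + (w : ℤ))) := by
          rw [← ENNReal.ofReal_mul (by positivity)]
          congr 1
          ring

end Pool.Agent.Helper8.P3
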